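import Pool.Agent.X97.IR.Enu

set_option autoImplicit false

/-! # MP_7321fb_lc: an introenumerable set that is not finitely decomposable -/

namespace Pool.Agent.Results.MP_7321fb_lc.NotFinitelyDecomposable

open Pool.Agent.X97.IR

/-- There is an introenumerable set `A` that is not a finite union of sets `A_0, ..., A_n` with
`A ≤_e^{ui} A_i` for all `i`. -/
theorem result : ∃ A : Set ℕ, Introenumerable A ∧ ¬ FinitelyEDecomposable A :=
  exists_not_finitelyEDecomposable

end Pool.Agent.Results.MP_7321fb_lc.NotFinitelyDecomposable
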